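import Mathlib
import Pool.Agent.CLF.Final

/-!
# The smooth Fano blow-ups of `ℙ^3` of cluster type

Definitions (`Pool/Agent/CLU/Defs.lean`, `Van.lean`): `S` is the homogeneous coordinate ring of
`ℙ^3`, `K3` its function field (quotients of forms of the same degree), `VanTo P m F` says that `F`
vanishes to order at least `m` along `V(P)`, `surfRing G` is the local ring of the surface `G = 0`,
`blowRing P` the local ring of the exceptional divisor of the blow-up of `V(P)`, `primeDivisors Z`
the set of the local rings of all prime divisors of the blow-up in the centres `V(P)`, `P ∈ Z`, and
`IsClusterType` says that there is a torus chart whose volume form has no zero along these divisors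
and whose prime divisors are among them.

`FanoCentres` (`Pool/Agent/CLU/Fam.lean`) and `TwoFour` (`Pool/Agent/CLF/Glue.lean`) list the
centres; by the classification of Mori and Mukai they include those of all smooth Fano blow-ups of
`ℙ^3` except four toric threefolds with infinitely near centres (`TwoFour` is the family 2-4:
smooth complete intersections of two cubics).

`IsDiagonal P` (`Pool/Agent/CLN/NegD.lean`): `P` is generated by `∑ l_i^3` and `∑ a_i l_i^3` with
independent linear forms `l_i` and four different numbers `a_i`.
-/

set_option autoImplicit false

namespace Pool.Agent.Results.MP_0090ec_ag.Classification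

open Pool.Agent.CLU Pool.Agent.CLN Pool.Agent.CLF

theorem result (Z : Set (Ideal S)) (h : FanoCentres Z ∨ TwoFour Z) :
    IsClusterType (primeDivisors Z) ↔ ¬ ∃ P, Z = {P} ∧ IsDiagonal P :=
  final Z h

end Pool.Agent.Results.MP_0090ec_ag.Classification
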